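import Pool.Agent.Helper4.S7.Tm

/-!
# Project W7 (level `7^n`): lists for the certificates

All lists are machine generated. Leading forms (classes: sum over `w` of `om6 w ^ c` times the coefficient of `oW w (oB - 1)^i (oD - 1)^k (oA - 1)^j`), after subtraction of the multiples of
the relations: `UL` (weight 2): row 0: class 0 `3XY` on `F0`, class 2 `4XY` on `F0` and `XY` on `F1`; row 1: class 2 `3XY` on `F1`, class 4 `4XY` on `F1`. `VL` (weight 4): row 0: class 2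
`4X³Y + 2X²Y² + 4Y⁴` on `F1`; row 1: class 2 `5X²Y²` on `F1`, class 4 `X⁴ + XY³` on `F0` and on `F1`. `EL` (weight 8): row 0: class 0 `5(X⁷Y + X⁴Y⁴ + XY⁷)` on `F0`; row 1: class 2
`2(X⁷Y + X⁴Y⁴ + XY⁷)` on `F1`. All other coefficients of these classes and all coefficients of smaller weight vanish modulo 7.
-/

set_option autoImplicit false

namespace Pool.Agent.Helper52.S7

open Pool.Agent.Helper4.S7

/-- The rows of `T_2² - 4 T_2 + 3`. -/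
def UL : Fin 2 → Fin 2 → List Tm := adL (mmL T2L T2L) (adL (smL (-4) T2L) (idL 3))

/-- The rows of `T_3 (T_2² + T_2 + 2)`. -/
def VL : Fin 2 → Fin 2 → List Tm := mmL T3L (adL (mmL T2L T2L) (adL T2L (idL 2)))

/-- The rows of `T_3 (3 + 2 T_2 - T_2² - T_3²) + T_5 (T_2² + 4)`. -/
def EL : Fin 2 → Fin 2 → List Tm :=
  adL (mmL T3L (adL (idL 3) (adL (smL 2 T2L) (adL (smL (-1) (mmL T2L T2L)) (smL (-1) (mmL T3L T3L))))))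
    (mmL T5L (adL (mmL T2L T2L) (idL 4)))

/-- The first row of `(T_2 - 3)²`, that is of `T_2² + T_2 + 2` modulo 7. -/
def ZL (f : Fin 2) : List Tm := adL (mmL T2L T2L) (adL T2L (idL 2)) 0 f

/-- The first row of `T_3 T_2 + 2 T_2² + 3 T_2 + 2 T_3 + 2`. -/
def OL (f : Fin 2) : List Tm :=
  adL (mmL T3L T2L) (adL (smL 2 (mmL T2L T2L)) (adL (smL 3 T2L) (adL (smL 2 T3L) (idL 2)))) 0 f

/-- Multipliers of the relations for `T_2² - 4 T_2 + 3`: `MU i ρ`. -/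
def MU : Fin 2 → Fin 2 → List Tm
  | 0, 0 => [(2, 1, 0, 2, -5), (1, 3, -2, 0, -4)]
  | 0, 1 => [(-3, 1, -2, 1, -3)]
  | 1, 0 => [(3, 1, 2, -1, 2), (1, 2, 2, -1, 2)]
  | 1, 1 => [(3, 1, 2, 3, 1)]

/-- Multipliers of the relations for `T_3 (T_2² + T_2 + 2)`: `MV i ρ`. -/
def MV : Fin 2 → Fin 2 → List Tm
  | 0, 0 => [(1, 2, 1, -1, -2), (-3, 2, 4, 1, -1), (2, 2, -4, -1, -2), (3, 1, 4, 0, -1), (3, 1, 1, -1, -4), (3, 2, -1, 1, 5)]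
  | 0, 1 => [(-2, 3, 2, 1, 1), (2, 4, 0, -1, -2), (-2, 1, -7, 0, -2)]
  | 1, 0 => [(2, 2, -1, 0, -1), (2, 5, 0, 1, 2), (-1, 2, -2, 3, -1), (3, 1, -1, 1, -4), (1, 5, 0, -1, 2), (3, 3, 0, 1, -5)]
  | 1, 1 => [(2, 6, 1, 1, 1), (3, 3, -3, 1, 2), (-1, 1, 2, 3, -1)]

/-- Multipliers of the relations for `T_3 (3 + 2 T_2 - T_2² - T_3²) + T_5 (T_2² + 4)`: `M8 i ρ`. -/
def M8 : Fin 2 → Fin 2 → List Tm
  | 0, 0 => [(2, 2, -2, 0, 3), (-1, 2, -3, 2, -1), (-1, 1, 1, -3, -2), (-3, 1, -3, -2, -1), (-2, 1, -4, 1, 3), (-1, 2, -1, 1, 3), (-1, 1, 1, 2, 3), (-2, 1, 1, 3, -1), (-2, 1, -1, -1, -4), (1, 4, 4, 0, -1), (-3, 1, -4, 0, 3), (1, 2, 1, 1, -1), (-2, 1, 0, -3, 3), (-2, 3, 4, 0, 2), (1, 2, 2, 0, -1), (3, 4, 0, 1, 3), (2, 1, -1, -1, -2), (3, 6, -1, 0, 1), (-2, 2, 0, 0, 5), (1, 1, 0, 3, -1), (2, 5, 1, -1, 1), (1, 1, -6, 0, -2), (-3, 1,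 -2, 0, -4), (3, 2, 1, 1, 5), (3, 4, 2, -1, -2)]
  | 0, 1 => [(-1, 4, -2, -1, -1), (3, 3, -1, 1, 4), (-3, 2, 1, 0, 3), (-1, 1, -2, 0, -1), (-3, 4, -3, -1, -1), (3, 4, -1, 1, -2), (3, 1, -3, 1, 3), (-2, 3, -3, -1, 1), (-2, 4, 0, 1, -1), (-3, 5, 1, 0, 1), (-3, 1, 3, 2, -2), (1, 3, 5, 0, 2), (2, 2, -2, 1, -1), (3, 1, -4, 0, -1), (-3, 4, 0, 2, -1), (2, 1, 0, -4, -1), (-2, 1, 0, -1, 5), (1, 4, -2, -1, -2)]
  | 1, 0 => [(1, 3, 0, 2, 4), (3, 4, 0, 1, -2), (-1, 1, -2, -4, -1), (-2, 5, 1, 2, 1), (2, 5, -3, 1, 1), (1, 1, 7, 0, 3), (3, 1, 2, 0, -9), (-3, 1, 6, 1, -2), (-1, 6, -4, 0, 1), (-3, 4, -1, 0, 5), (-3, 5, 2, -1, 1), (2, 1, 2, 2, -1), (-3, 2, 1, -2, -2), (-2, 4, -2, 0, 5), (-2, 4, 0, -1, -4), (-2, 1, -1, -1, -1), (2, 2, -2, 0, 5), (3, 6, -1, 1, 1), (3, 2, 3, 2, -2), (-1, 4, 0, 1, -4), (2, 5, 2, 1, 2), (-1, 5, 0, 1, 4), (-1,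 1, 1, -3, -4), (-1, 1, 3, 1, -1), (-2, 6, 1, 1, -3)]
  | 1, 1 => [(1, 1, 5, 0, 3), (3, 5, -4, 1, 1), (3, 2, -1, 1, -2), (3, 1, -5, 1, -1), (-3, 6, 1, -1, 1), (2, 2, -3, 0, 6), (1, 2, 1, 1, 6), (-1, 2, -1, -1, 6), (1, 2, -5, 1, 3), (-1, 2, 0, 3, -4), (3, 1, -3, -3, -2), (3, 3, 1, 1, -3), (3, 1, -3, 1, -1), (1, 4, 1, 2, -2), (-3, 1, 3, -1, 5), (2, 1, 6, 0, 3), (2, 4, 2, 1, -2), (1, 2, 2, -1, -4), (1, 5, 2, -2, 1), (-3, 1, 0, 2, -2), (1, 5, -2, 1, 1)]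

/-- Multipliers of the relations for the first row of `(T_2 - 3)²` at the origin: `MZ ρ`. -/
def MZ : Fin 2 → List Tm
  | 0 => [(1, 1, 2, 6, 1)]
  | 1 => [(-1, 1, 3, 3, 1)]

/-- Multipliers of the relations for the first row of `T_3 T_2 + 2 T_2² + 3 T_2 + 2 T_3 + 2` at the origin: `MO ρ`. -/
def MO : Fin 2 → List Tm
  | 0 => [(3, 1, 2, 6, 1), (-1, 1, 5, 0, 1)]
  | 1 => [(1, 1, 1, 0, 1), (-3, 1, 4, 1, 1)]

/-- The rows `L i f` minus the multiples `M i ρ` of the relations. -/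
def sbL (L M : Fin 2 → Fin 2 → List Tm) (i f : Fin 2) : List Tm :=
  L i f ++ sclL (-1) (mulL (M i 0) (relL 0 f)) ++ sclL (-1) (mulL (M i 1) (relL 1 f))

/-- The row `L f` minus the multiples `M ρ` of the relations. -/
def sbR (L M : Fin 2 → List Tm) (f : Fin 2) : List Tm :=
  L f ++ sclL (-1) (mulL (M 0) (relL 0 f)) ++ sclL (-1) (mulL (M 1) (relL 1 f))

end Pool.Agent.Helper52.S7
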